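import Pool.Agent.MP_9f8ce8_lc.Defs

namespace Pool.Agent.MP_9f8ce8_lc.Cap

open Finset

/-- Probability vectors on a finite type. -/
def IsProb {α : Type} [Fintype α] (w : α → ℝ) : Prop := (∀ a, 0 ≤ w a) ∧ ∑ a, w a = 1

/-- Expected mistake rate of a randomised learner that answers true with probability h S x after
reading a sample S of m independent noisy examples and a fresh point x drawn from D. -/
def mis {n m : ℕ} (η : ℝ) (c : X n → Bool) (D : X n → ℝ) (h : Sample n m → X n → ℝ) : ℝ :=
  ∑ S : Sample n m, (∏ i, exProb η c D (S i)) *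
    ∑ x : X n, D x * (if c x then 1 - h S x else h S x)

/-- Some learner that reads m examples with noise rate η has mistake rate at most 1/2 - γ for
every pair in P made of a target and a probability distribution. -/
def Weak {n : ℕ} (η : ℝ) (P : Set ((X n → Bool) × (X n → ℝ))) (m : ℕ) (γ : ℝ) : Prop :=
  ∃ h : Sample n m → X n → ℝ, (∀ S x, 0 ≤ h S x ∧ h S x ≤ 1) ∧
    ∀ t ∈ P, IsProb t.2 → mis η t.1 t.2 h ≤ 1 / 2 - γ

end Pool.Agent.MP_9f8ce8_lc.Cap
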