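import Mathlib

namespace Pool.Agent.MP_9f8ce8_lc

open Finset

/-- The instance space of bit strings of length n. -/
abbrev X (n : ℕ) : Type := Fin n → Bool

/-- A sequence of m labelled examples. -/
abbrev Sample (n m : ℕ) : Type := Fin m → X n × Bool

/-- Probability of the labelled example y under distribution D, target c and noise rate η. -/
def exProb {n : ℕ} (η : ℝ) (c : X n → Bool) (D : X n → ℝ) (y : X n × Bool) : ℝ :=
  D y.1 * (if y.2 = c y.1 then 1 - η else η)

/-- Expected mistake rate of the predictor h, which reads m independent noisy examples, a fresh
point x drawn from D, and uniformly random coins in Ω. -/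
noncomputable def err {n m : ℕ} {Ω : Type} [Fintype Ω] (η : ℝ) (c : X n → Bool) (D : X n → ℝ)
    (h : Sample n m → X n → Ω → Bool) : ℝ :=
  ∑ S : Sample n m, (∏ i, exProb η c D (S i)) *
    ∑ x : X n, D x * (∑ ω : Ω, if h S x ω = c x then (0 : ℝ) else 1) / (Fintype.card Ω : ℝ)

/-- Decision trees making adaptive yes or no queries from Q and returning a bit. -/
inductive DT (Q : Type) : Type
  | leaf : Bool → DT Q
  | node : Q → DT Q → DT Q → DT Q

/-- The largest number of queries made on any branch. -/
def DT.depth {Q : Type} : DT Q → ℕ
  | .leaf _ => 0
  | .node _ t f => max t.depth f.depth + 1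

/-- The output of the tree when queries are answered by O. -/
def DT.eval {Q : Type} (O : Q → Bool) : DT Q → Bool
  | .leaf b => b
  | .node q t f => if O q then t.eval O else f.eval O

/-- Queries, at any length n: run the learner on a sample of size m n, a point and two coins of
one's choice, or evaluate concept number k at a point. -/
inductive Query (m : ℕ → ℕ) : Type
  | learner : (n : ℕ) → Sample n (m n) → X n → Bool × Bool → Query m
  | concept : (n : ℕ) → Fin (2 ^ n) → X n → Query m

/-- The oracle answering queries with the learner A and the concept table F. -/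
def oracle {m : ℕ → ℕ} (A : (n : ℕ) → Sample n (m n) → X n → Bool × Bool → Bool)
    (F : (n : ℕ) → Fin (2 ^ n) → X n → Bool) : Query m → Bool
  | .learner n S x ω => A n S x ω
  | .concept n k x => F n k x

end Pool.Agent.MP_9f8ce8_lc
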