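import Mathlib

namespace Pool.Agent.MP_9f8ce8_lc.Par

open Finset

/-- Bit vectors whose coordinates are indexed by κ. -/
abbrev Vec (κ : Type) : Type := κ → ZMod 2

/-- The parity function with coefficient vector s. -/
def par {κ : Type} [Fintype κ] (s : Vec κ) (x : Vec κ) : ZMod 2 := ∑ l, s l * x l

/-- Probability vectors on a finite type. -/
def IsProb {α : Type} [Fintype α] (w : α → ℝ) : Prop := (∀ a, 0 ≤ w a) ∧ ∑ a, w a = 1

/-- Probability of the labelled example z under distribution D, target c and noise rate η. -/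
def exProb {κ : Type} (η : ℝ) (c : Vec κ → ZMod 2) (D : Vec κ → ℝ) (z : Vec κ × ZMod 2) : ℝ :=
  D z.1 * (if z.2 = c z.1 then 1 - η else η)

/-- Expected mistake rate of the predictor h, which reads independent noisy examples indexed by ι,
a fresh point x drawn from D, and coins in Ω with distribution u. -/
def err {ι κ Ω : Type} [Fintype ι] [DecidableEq ι] [Fintype κ] [DecidableEq κ] [Fintype Ω]
    (η : ℝ) (c : Vec κ → ZMod 2) (D : Vec κ → ℝ) (u : Ω → ℝ)
    (h : (ι → Vec κ × ZMod 2) → Vec κ → Ω → ZMod 2) : ℝ :=
  ∑ S : ι → Vec κ × ZMod 2, ∑ x : Vec κ, ∑ ω : Ω,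
    (∏ i, exProb η c D (S i)) * D x * u ω * (if h S x ω = c x then 0 else 1)

open Classical in
/-- The uniform distribution on the linear subspace W. -/
noncomputable def unif {κ : Type} (W : Submodule (ZMod 2) (Vec κ)) (x : Vec κ) : ℝ :=
  if x ∈ W then 1 / (Nat.card W : ℝ) else 0

/-- Data of constant size: a Boolean function F of K bits and a distribution w on r triples, each
made of a label, a K by K matrix and a vector of K bits. -/
structure Gadget (K r : ℕ) where
  F : Vec (Fin K) → ZMod 2
  w : Fin r → ℝ
  y : Fin r → ZMod 2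
  B : Fin r → Matrix (Fin K) (Fin K) (ZMod 2)
  t : Fin r → Vec (Fin K)

/-- The index set of the lifted points. It has (n+1)^K elements. -/
abbrev Idx (K n : ℕ) : Type := Fin K → Option (Fin n)

/-- The K-th tensor power of the vector (1, s). -/
def sec {n : ℕ} (K : ℕ) (s : Vec (Fin n)) : Vec (Idx K n) := fun φ => ∏ k, (φ k).elim 1 s

/-- The lifted point made from K labelled examples U and the triple number ρ. -/
def Gadget.lift {K r n : ℕ} (G : Gadget K r) (ρ : Fin r) (U : Fin K → Vec (Fin n) × ZMod 2) :
    Vec (Idx K n) := fun φ =>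
  ∑ a : Vec (Fin K), G.F a * ∏ k, (φ k).elim
    (∑ j, G.B ρ k j * ((U j).2 + G.t ρ j) + a k + 1) (fun l => ∑ j, G.B ρ k j * (U j).1 l)

/-- Coins of the booster: m + 1 triple numbers, a position, K bits and the coins of A. -/
abbrev Coins (K r m : ℕ) (Ω : Type) : Type := (Fin m → Fin r) × Fin r × Fin K × Vec (Fin K) × Ω

/-- The coins are independent; triple numbers follow w, the position and the bits are uniform. -/
noncomputable def Gadget.coinW {K r m : ℕ} {Ω : Type} (G : Gadget K r) (u : Ω → ℝ)
    (c : Coins K r m Ω) : ℝ :=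
  (∏ j, G.w (c.1 j)) * G.w c.2.1 * (1 / (K : ℝ)) * (1 / 2 ^ K) * u c.2.2.2.2

/-- The booster. It reads m + 1 blocks of K examples and calls A once: on m lifted examples, one
for each of m blocks, and on the lifted point made from the last block after x is put at position
i and the labels from position i on are replaced by the random bits. -/
def Gadget.boost {K r n m : ℕ} {Ω : Type} (G : Gadget K r)
    (A : (Fin m → Vec (Idx K n) × ZMod 2) → Vec (Idx K n) → Ω → ZMod 2)
    (S : Option (Fin m) × Fin K → Vec (Fin n) × ZMod 2) (x : Vec (Fin n)) :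
    Coins K r m Ω → ZMod 2 := fun (ρ, ρ₀, i, β, ω) =>
  β i + G.y ρ₀ + A (fun j => (G.lift (ρ j) fun k => S (some j, k), G.y (ρ j)))
    (G.lift ρ₀ fun k => (if k = i then x else (S (none, k)).1,
      if k < i then (S (none, k)).2 else β k)) ω

end Pool.Agent.MP_9f8ce8_lc.Par
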