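import Pool.Agent.MP_9f8ce8_lc.ParMix
import Pool.Agent.MP_9f8ce8_lc.ParDefs

namespace Pool.Agent.MP_9f8ce8_lc.Par

open Finset

/-- Two mixtures whose likelihood ratio takes only the values (1-η)/η and η/(1-η). -/
def Gad (p η : ℝ) : Prop :=
  ∃ (V : Type) (_ : AddCommGroup V) (_ : Module (ZMod 2) V) (_ : Fintype V) (F : V → ZMod 2)
    (M : ZMod 2 → V → ℝ), (∀ y, M y ∈ Mix p V) ∧ ∀ v, η * M (F v) v = (1 - η) * M (F v + 1) v

variable {p η η' : ℝ}

lemma z11 (a : ZMod 2) : a + 1 + 1 = a := by revert a; decide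

lemma z1ne (a : ZMod 2) : a + 1 ≠ a := by revert a; decide

lemma hcases : ∀ y a : ZMod 2, y = a ∨ y = a + 1 := by decide

lemma gad_base : Gad p p := by
  refine ⟨Fin 1 → ZMod 2, inferInstance, inferInstance, inferInstance, fun v => v 0,
    fun y v => nu p (LinearEquiv.refl (ZMod 2) _ v + fun _ => y),
    fun y => gen_sub ⟨Fin 1, inferInstance, _, _, rfl⟩, fun v => ?_⟩
  have h1 : v 0 + v 0 = 0 := CharTwo.add_self_eq_zero _
  have h2 : v 0 + (v 0 + 1) ≠ 0 := by rw [← add_assoc, h1]; decide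
  simp only [nu, n1, Fin.prod_univ_succ, LinearEquiv.refl_apply, Pi.add_apply, h1, h2,
    univ_eq_empty, prod_empty, if_true, if_false]
  ring

lemma gad_up (h : Gad p η) (h1 : η < 1 / 2) (h2 : η ≤ η') (h3 : η' ≤ 1 / 2) : Gad p η' := by
  obtain ⟨V, _, _, _, F, M, hM, hr⟩ := h
  have hd : 0 < 1 - 2 * η := by linarith
  set q := (η' - η) / (1 - 2 * η) with hq
  have hq0 : 0 ≤ q := div_nonneg (by linarith) hd.le
  have hq1 : q ≤ 1 := by rw [hq, div_le_one hd]; linarith
  refine ⟨V, inferInstance, inferInstance, inferInstance, F,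
    fun y => (1 - q) • M y + q • M (y + 1),
    fun y => mix_convex (hM y) (hM (y + 1)) (by linarith) hq0 (by ring), fun v => ?_⟩
  simp only [Pi.add_apply, Pi.smul_apply, smul_eq_mul, z11]
  have := hr v
  have hq' : q * (1 - 2 * η) = η' - η := div_mul_cancel₀ _ hd.ne'
  refine mul_left_cancel₀ hd.ne' ?_
  linear_combination (1 - 2 * η') * this - (M (F v) v - M (F v + 1) v) * hq'

lemma gad_step (h : Gad p η) {m : ℕ} (hm : 0 < m) {a c : ℝ}
    (ha : (2 ^ m : ℝ)⁻¹ ≤ a) (hac : a ≤ c) (hc : c ≤ (1 - p) ^ m) (hη : η ≠ 0)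
    (e1 : η' * η * c = (1 - η') * (1 - η) * a)
    (e2 : η' * (1 - η) * (1 - a) = (1 - η') * η * (1 - c)) : Gad p η' := by
  classical
  obtain ⟨V, _, _, _, F, M, hM, hr⟩ := h
  refine ⟨V × (V → Fin m → ZMod 2), inferInstance, inferInstance, inferInstance,
    fun x => if x.2 x.1 = 0 then F x.1 + 1 else F x.1,
    fun y x => M y x.1 * ∏ j, if x.1 = j then spike m (if y = F j then a else c) (x.2 j)
      else (Fintype.card (Fin m → ZMod 2) : ℝ)⁻¹,
    fun y => mix_mask (hM y) (fun j => spike m (if y = F j then a else c)) fun j => ?_,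
    fun x => ?_⟩
  · split_ifs
    · exact spike_mem hm ha (hac.trans hc)
    · exact spike_mem hm (ha.trans hac) hc
  · have hp : ∀ y, (∏ j, if x.1 = j then spike m (if y = F j then a else c) (x.2 j)
        else (Fintype.card (Fin m → ZMod 2) : ℝ)⁻¹)
        = spike m (if y = F x.1 then a else c) (x.2 x.1) *
          ∏ _j ∈ univ.erase x.1, (Fintype.card (Fin m → ZMod 2) : ℝ)⁻¹ := by
      intro y
      rw [← mul_prod_erase _ _ (mem_univ x.1), if_pos rfl]
      congr 1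
      exact prod_congr rfl fun j hj => if_neg (ne_of_mem_erase hj).symm
    have := hr x.1
    simp only [hp]
    generalize (∏ _j ∈ univ.erase x.1, (Fintype.card (Fin m → ZMod 2) : ℝ)⁻¹) = κ
    refine mul_left_cancel₀ hη ?_
    by_cases hz : x.2 x.1 = 0
    · simp only [hz, if_true, z11, z1ne, if_false, spike]
      linear_combination κ * M (F x.1 + 1) x.1 * e1 - κ * (1 - η') * a * this
    · simp only [hz, if_true, z1ne, if_false, spike]
      linear_combination κ / (2 ^ m - 1) * M (F x.1 + 1) x.1 * e2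
        + κ / (2 ^ m - 1) * η' * (1 - a) * this

lemma gad_all (hp : p < 1 / 2) (h0 : 0 < η) (h1 : η < 1 / 2) (hp0 : 0 ≤ p) : Gad p η := by
  have hd : 0 < 1 - 2 * p := by linarith
  obtain ⟨m, hm⟩ := pow_unbounded_of_one_lt (4 / ((1 - 2 * p) * η ^ 2))
    (show (1 : ℝ) < 2 * (1 - p) by linarith)
  have h2m : (0 : ℝ) < 2 ^ m := by positivity
  have hle : (2 * (1 - p)) ^ m ≤ 2 ^ m := pow_le_pow_left₀ (by linarith) (by linarith) m
  rw [div_lt_iff₀ (by positivity)] at hm
  have hη2 : (1 - 2 * p) * η ^ 2 ≤ η ^ 2 := by nlinarith [sq_nonneg η]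
  have hm4 : 4 < 2 ^ m * η ^ 2 := by
    calc (4 : ℝ) < _ := hm
      _ ≤ 2 ^ m * η ^ 2 := mul_le_mul hle hη2 (by positivity) h2m.le
  have hm0 : 0 < m := by
    rcases Nat.eq_zero_or_pos m with rfl | h
    · nlinarith
    · exact h
  set θ : ℝ := 2 / (2 ^ m * η) with hθ
  have hθ0 : 0 < θ := by positivity
  have hθ1 : θ ≤ η / 2 := by
    rw [hθ, div_le_div_iff₀ (by positivity) (by norm_num)]; nlinarith
  have key : ∀ k : ℕ, ∀ x, η ≤ x → p - k * θ ≤ x → x ≤ 1 / 2 → Gad p x := by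
    intro k
    induction k with
    | zero => intro x _ hx hx'; exact gad_up gad_base hp (by simpa using hx) hx'
    | succ k ih =>
      intro x hx1 hx2 hx3
      by_cases hk : p - k * θ ≤ x
      · exact ih x hx1 hk hx3
      have hk0 : 0 ≤ k * θ := by positivity
      set s := p - k * θ with hs
      have hs1 : η ≤ s := by linarith
      have hs2 : s ≤ p := by linarith
      have hG := ih s hs1 le_rfl (by linarith)
      have hx4 : s - θ ≤ x := by push_cast at hx2; linarith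
      refine gad_up (η := s - θ) ?_ (by linarith) hx4 hx3
      have hd' : 0 < 1 - 2 * (s - θ) := by linarith
      have hs0 : 0 < s := by linarith
      have hs3 : 0 < 1 - s := by linarith
      have hh1 : θ ≤ θ / (1 - 2 * (s - θ)) := by
        rw [le_div_iff₀ hd']; nlinarith
      have hh2 : θ / (1 - 2 * (s - θ)) ≤ θ / (1 - 2 * p) :=
        div_le_div_of_nonneg_left hθ0.le hd (by linarith)
      have hh3 : θ / (1 - 2 * (s - θ)) * (1 - 2 * (s - θ)) = θ := by field_simp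
      set h := θ / (1 - 2 * (s - θ)) with hh
      have hh0 : 0 < h := by linarith
      refine gad_step hG hm0 (a := (s - θ) * h / (1 - s)) (c := (1 - (s - θ)) * h / s)
        ?_ ?_ ?_ hs0.ne' (by field_simp) ?_
      · have e : (2 ^ m : ℝ)⁻¹ = η / 2 * θ := by rw [hθ]; field_simp
        rw [e, le_div_iff₀ hs3]
        calc η / 2 * θ * (1 - s) ≤ η / 2 * θ := by nlinarith [mul_pos h0 hθ0]
          _ ≤ (s - θ) * h := mul_le_mul (by linarith) hh1 hθ0.le (by linarith)
      · rw [div_le_div_iff₀ hs3 hs0]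
        have : (s - θ) * s ≤ (1 - (s - θ)) * (1 - s) := by nlinarith
        nlinarith
      · have e : θ / (1 - 2 * p) / η ≤ (1 - p) ^ m := by
          rw [div_div, div_le_iff₀ (by positivity), hθ, div_le_iff₀ (by positivity)]
          rw [mul_pow] at hm
          nlinarith
        refine le_trans ?_ e
        refine div_le_div₀ (by positivity) ?_ h0 hs1
        nlinarith
      · have e3 : (1 - s) * (1 - (s - θ) * h / (1 - s)) = 1 - s - (s - θ) * h := by field_simp
        have e4 : s * (1 - (1 - (s - θ)) * h / s) = s - (1 - (s - θ)) * h := by field_simp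
        rw [mul_assoc, e3, mul_assoc, e4]
        linear_combination hh3
  obtain ⟨k, hk⟩ := exists_nat_ge (p / θ)
  rw [div_le_iff₀ hθ0] at hk
  exact key k η le_rfl (by linarith) h1.le

lemma mix_weights {K : ℕ} [Fintype (Vec (Fin K) ≃ₗ[ZMod 2] Vec (Fin K))]
    {μ : Vec (Fin K) → ℝ} (h : μ ∈ Mix p (Vec (Fin K))) :
    ∃ w : (Vec (Fin K) ≃ₗ[ZMod 2] Vec (Fin K)) × Vec (Fin K) → ℝ, IsProb w ∧
      ∀ v, μ v = ∑ a, w a * nu p (a.1 v + a.2) := by
  classical
  refine convexHull_min (t := {μ : Vec (Fin K) → ℝ |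
    ∃ w : (Vec (Fin K) ≃ₗ[ZMod 2] Vec (Fin K)) × Vec (Fin K) → ℝ, IsProb w ∧
      ∀ v, μ v = ∑ a, w a * nu p (a.1 v + a.2)}) ?_ ?_ h
  · rintro _ ⟨ι, _, g, t, rfl⟩
    have : Fact (Nat.Prime 2) := ⟨Nat.prime_two⟩
    have hc : Fintype.card ι = K := by
      have := g.finrank_eq
      simpa using this.symm
    let e : Fin K ≃ ι := (Fintype.equivFinOfCardEq hc).symm
    let a₀ : (Vec (Fin K) ≃ₗ[ZMod 2] Vec (Fin K)) × Vec (Fin K) :=
      (g.trans (LinearEquiv.funCongrLeft (ZMod 2) (ZMod 2) e), fun k => t (e k))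
    refine ⟨fun a => if a = a₀ then 1 else 0, ⟨fun a => by beta_reduce; split_ifs <;> norm_num, by simp⟩,
      fun v => ?_⟩
    simp only [ite_mul, one_mul, zero_mul, sum_ite_eq', mem_univ, if_true]
    exact (Fintype.prod_equiv e _ _ fun k => rfl).symm
  · rintro x ⟨w, hw, hx⟩ y ⟨w', hw', hy⟩ a b ha hb hab
    refine ⟨fun i => a * w i + b * w' i, ⟨fun i => ?_, ?_⟩, fun v => ?_⟩
    · exact add_nonneg (mul_nonneg ha (hw.1 i)) (mul_nonneg hb (hw'.1 i))
    · rw [sum_add_distrib, ← mul_sum, ← mul_sum, hw.2, hw'.2]; linarith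
    · simp only [Pi.add_apply, Pi.smul_apply, smul_eq_mul, hx, hy, mul_sum, ← sum_add_distrib]
      exact sum_congr rfl fun i _ => by ring

/-- The properties of the gadget that the reduction uses. -/
structure Good {K r : ℕ} (G : Gadget K r) (p η : ℝ) (C : Fin r → Matrix (Fin K) (Fin K) (ZMod 2))
    (D : Vec (Fin K) → ℝ) : Prop where
  pos : 0 < K
  w : IsProb G.w
  BC : ∀ ρ, G.B ρ * C ρ = 1
  CB : ∀ ρ, C ρ * G.B ρ = 1
  hD : IsProb D
  law : ∀ v y, ∑ ρ, G.w ρ * (if G.y ρ = y then nu p ((C ρ).mulVec v + G.t ρ) else 0)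
    = D v * n1 η (y + G.F v)
  half : ∀ y, ∑ ρ, G.w ρ * (if G.y ρ = y then 1 else 0) = 1 / 2

lemma exists_good (hp : p < 1 / 2) (h0 : 0 < η) (h1 : η < 1 / 2) (hp0 : 0 ≤ p) :
    ∃ (K r : ℕ) (G : Gadget K r) (C : Fin r → Matrix (Fin K) (Fin K) (ZMod 2))
      (D : Vec (Fin K) → ℝ), Good G p η C D := by
  classical
  obtain ⟨V, _, _, _, F, M, hM, hr⟩ := gad_all hp h0 h1 hp0
  have : Fact (Nat.Prime 2) := ⟨Nat.prime_two⟩
  let K := Module.finrank (ZMod 2) V
  let φ : Vec (Fin K) ≃ₗ[ZMod 2] V := (Module.finBasis (ZMod 2) V).equivFun.symm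
  have : Finite (Vec (Fin K) ≃ₗ[ZMod 2] Vec (Fin K)) := DFunLike.finite _
  let _ : Fintype (Vec (Fin K) ≃ₗ[ZMod 2] Vec (Fin K)) := Fintype.ofFinite _
  have hM' : ∀ y, (fun v => M y (φ v + 0)) ∈ Mix p (Vec (Fin K)) := fun y => mix_comp φ 0 (hM y)
  choose w hw hw' using fun y => mix_weights (hM' y)
  let Ω := ZMod 2 × ((Vec (Fin K) ≃ₗ[ZMod 2] Vec (Fin K)) × Vec (Fin K))
  let e : Fin (Fintype.card Ω) ≃ Ω := (Fintype.equivFin Ω).symm
  have hsum : ∀ f : Ω → ℝ, ∑ ρ, f (e ρ) = ∑ y, ∑ a, f (y, a) := fun f => by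
    rw [Fintype.sum_equiv e _ f fun _ => rfl, Fintype.sum_prod_type]
  refine ⟨K, Fintype.card Ω, ⟨fun v => F (φ v), fun ρ => 1 / 2 * w (e ρ).1 (e ρ).2,
    fun ρ => (e ρ).1, fun ρ => LinearMap.toMatrix' (e ρ).2.1.symm.toLinearMap, fun ρ => (e ρ).2.2⟩,
    fun ρ => LinearMap.toMatrix' (e ρ).2.1.toLinearMap,
    fun v => (M 0 (φ v) + M 1 (φ v)) / 2, ?_, ⟨fun ρ => ?_, ?_⟩, fun ρ => ?_, fun ρ => ?_,
    ⟨fun v => ?_, ?_⟩, fun v y => ?_, fun y => ?_⟩
  · rcases Nat.eq_zero_or_pos K with hK | hK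
    · exfalso
      have hs : Subsingleton V := Module.finrank_zero_iff.1 hK
      have h2 : ∀ y, M y 0 = 1 := fun y => by
        rw [← mix_sum (hM y), Fintype.sum_subsingleton _ 0]
      have := hr 0
      rw [h2, h2] at this
      linarith
    · exact hK
  · exact mul_nonneg (by norm_num) ((hw _).1 _)
  · rw [hsum fun a => 1 / 2 * w a.1 a.2]
    simp only [← mul_sum, (hw _).2]
    rw [sum_zmod2]; norm_num
  · simp [← LinearMap.toMatrix'_comp]
  · simp [← LinearMap.toMatrix'_comp]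
  · have := mix_nonneg hp0 (by linarith) (hM 0) (φ v)
    have := mix_nonneg hp0 (by linarith) (hM 1) (φ v)
    positivity
  · have h2 := mix_sum (hM' 0)
    have h3 := mix_sum (hM' 1)
    simp only [add_zero] at h2 h3
    rw [← sum_div, sum_add_distrib, h2, h3]; norm_num
  · simp only [LinearMap.toMatrix'_mulVec, LinearEquiv.coe_coe]
    rw [hsum fun a => 1 / 2 * w a.1 a.2 * (if a.1 = y then nu p (a.2.1 v + a.2.2) else 0),
      sum_eq_single y (fun b _ hb => by simp [hb]) (by simp)]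
    have h2 := hw' y v
    simp only [add_zero] at h2
    simp only [if_true, mul_assoc, ← mul_sum, ← h2]
    have h3 := hr (φ v)
    have h4 : M 0 (φ v) + M 1 (φ v) = M (F (φ v)) (φ v) + M (F (φ v) + 1) (φ v) := by
      rcases hcases (F (φ v)) 0 with h | h
      · rw [h]; simp
      · rw [h, z11, zero_add, add_comm]
    rw [h4]
    have h5 : F (φ v) + F (φ v) = 0 := CharTwo.add_self_eq_zero _
    rcases hcases y (F (φ v)) with h | h
    · rw [h, h5, n1, if_pos rfl]; linarith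
    · rw [h, add_right_comm, h5, n1, if_neg (z1ne 0)]; linarith
  · rw [hsum fun a => 1 / 2 * w a.1 a.2 * (if a.1 = y then 1 else 0),
      sum_eq_single y (fun b _ hb => by simp [hb]) (by simp)]
    simp only [if_true, mul_one, ← mul_sum, (hw _).2]

end Pool.Agent.MP_9f8ce8_lc.Par
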