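import Pool.Agent.MP_9f8ce8_lc.ParRed

namespace Pool.Agent.MP_9f8ce8_lc.Par

open Finset

variable {K r n : ℕ} (G : Gadget K r) (s : Vec (Fin n)) (W : Submodule (ZMod 2) (Vec (Fin n)))
  {p η : ℝ} {C : Fin r → Matrix (Fin K) (Fin K) (ZMod 2)} {D : Vec (Fin K) → ℝ}

/-- The law of the lifted point. -/
noncomputable def law (D : Vec (Fin K) → ℝ) (x : Vec (Idx K n)) : ℝ :=
  ∑ A : Fin K → Vec (Fin n), ∑ v : Vec (Fin K),
    (∏ k, unif W (A k)) * D v * (if mk G s A v = x then 1 else 0)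

lemma sum_law (g : Vec (Idx K n) → ℝ) : ∑ x, law G s W D x * g x =
    ∑ A : Fin K → Vec (Fin n), ∑ v : Vec (Fin K), (∏ k, unif W (A k)) * D v * g (mk G s A v) := by
  simp only [law, sum_mul]
  rw [sum_comm]
  refine sum_congr rfl fun A _ => ?_
  rw [sum_comm]
  refine sum_congr rfl fun v _ => ?_
  simp

lemma law_prob (hD : IsProb D) : IsProb (law G s W D) := by
  refine ⟨fun x => sum_nonneg fun A _ => sum_nonneg fun v _ => mul_nonneg (mul_nonneg
    (prod_nonneg fun k _ => (unif_prob W).1 _) (hD.1 v)) (by split_ifs <;> norm_num), ?_⟩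
  have := sum_law G s W (D := D) fun _ => 1
  simp only [mul_one, ← mul_sum, hD.2] at this
  rw [this]
  exact sum_pi_one _ (unif_prob W).2

lemma by_label (ν : Fin r → ℝ) (g : ZMod 2 → ℝ) : ∑ ρ, G.w ρ * (ν ρ * g (G.y ρ))
    = ∑ y, (∑ ρ, G.w ρ * if G.y ρ = y then ν ρ else 0) * g y := by
  simp only [sum_mul]
  rw [sum_comm]
  refine sum_congr rfl fun ρ _ => ?_
  simp [mul_assoc]

variable {G}

lemma change_all (hG : Good G p η C D) (ν : Vec (Fin K) → ℝ) (Φ : Vec (Idx K n) × ZMod 2 → ℝ) :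
    ∑ U : Fin K → Vec (Fin n) × ZMod 2, (∏ k, unif W (U k).1) * ν (noise s U) *
        ∑ ρ, G.w ρ * Φ (G.lift ρ U, G.y ρ)
      = ∑ A : Fin K → Vec (Fin n), ∑ v : Vec (Fin K), (∏ k, unif W (A k)) * ∑ y,
        (∑ ρ, G.w ρ * if G.y ρ = y then ν ((C ρ).mulVec v + G.t ρ) else 0) *
          Φ (mk G s A v, y) := by
  have h1 : ∀ ρ, ∑ U : Fin K → Vec (Fin n) × ZMod 2, (∏ k, unif W (U k).1) * ν (noise s U) *
      (G.w ρ * Φ (G.lift ρ U, G.y ρ)) = _ := fun ρ =>
    change G s W ρ (hG.BC ρ) (hG.CB ρ) ν fun x => G.w ρ * Φ (x, G.y ρ)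
  simp only [mul_sum _ _ ((∏ k, unif W _) * ν _)]
  rw [sum_comm, sum_congr rfl fun ρ _ => h1 ρ, sum_comm]
  refine sum_congr rfl fun A _ => ?_
  rw [sum_comm]
  refine sum_congr rfl fun v _ => ?_
  rw [← by_label G (fun ρ => ν ((C ρ).mulVec v + G.t ρ)) fun y => Φ (mk G s A v, y), mul_sum]
  exact sum_congr rfl fun ρ _ => by ring

lemma prod_exProb (U : Fin K → Vec (Fin n) × ZMod 2) :
    ∏ k, exProb p (par s) (unif W) (U k) = (∏ k, unif W (U k).1) * nu p (noise s U) := by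
  simp only [exProb_eq, prod_mul_distrib, nu, noise]

lemma real_block (hG : Good G p η C D) (Φ : Vec (Idx K n) × ZMod 2 → ℝ) :
    ∑ U : Fin K → Vec (Fin n) × ZMod 2, (∏ k, unif W (U k).1) * nu p (noise s U) *
        ∑ ρ, G.w ρ * Φ (G.lift ρ U, G.y ρ)
      = ∑ z, exProb η (par (sec K s)) (law G s W D) z * Φ z := by
  rw [change_all s W hG, Fintype.sum_prod_type]
  simp only [hG.law, exProb_eq, mul_assoc, ← mul_sum]
  rw [sum_law]
  simp only [par_mk, mul_assoc, ← mul_sum]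

/-- Correlation of h with the label on one block. -/
noncomputable def blk (G : Gadget K r) (h : Vec (Idx K n) → ZMod 2)
    (U : Fin K → Vec (Fin n) × ZMod 2) : ℝ := ∑ ρ, G.w ρ * sg (G.y ρ + h (G.lift ρ U))

/-- Hybrid noise: real below position i, uniform from position i on. -/
noncomputable def hyb (p : ℝ) (i : ℕ) (e : Vec (Fin K)) : ℝ :=
  ∏ k : Fin K, if (k : ℕ) < i then n1 p (e k) else 1 / 2

/-- Correlation in hybrid number i. -/
noncomputable def tot (G : Gadget K r) (p : ℝ) (h : Vec (Idx K n) → ZMod 2) (i : ℕ) : ℝ :=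
  ∑ U : Fin K → Vec (Fin n) × ZMod 2, (∏ k, unif W (U k).1) * hyb p i (noise s U) * blk G h U

lemma tot_zero (hG : Good G p η C D) (h : Vec (Idx K n) → ZMod 2) : tot s W G p h 0 = 0 := by
  unfold tot blk
  rw [change_all s W hG (hyb p 0) fun z => sg (z.2 + h z.1)]
  have h1 : ∀ y, (∑ ρ, G.w ρ * if G.y ρ = y then ∏ _k : Fin K, (1 / 2 : ℝ) else 0)
      = 1 / 2 * ∏ _k : Fin K, (1 / 2 : ℝ) := by
    intro y
    rw [← hG.half y, sum_mul]
    exact sum_congr rfl fun ρ _ => by split_ifs <;> ring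
  simp only [hyb, Nat.not_lt_zero, if_false, h1, ← mul_sum, sum_sg, mul_zero, sum_const_zero]

lemma tot_top (hG : Good G p η C D) (h : Vec (Idx K n) → ZMod 2) : tot s W G p h K =
    (1 - 2 * η) * ∑ x, law G s W D x * sg (h x + par (sec K s) x) := by
  have h1 : ∀ e : Vec (Fin K), hyb p K e = nu p e := fun e => by simp [hyb, nu]
  unfold tot blk
  simp only [h1]
  rw [real_block s W hG fun z => sg (z.2 + h z.1), Fintype.sum_prod_type, mul_sum]
  refine sum_congr rfl fun x _ => ?_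
  simp only [exProb_eq, mul_assoc, ← mul_sum, sum_n1_sg]
  ring

lemma hyb_succ (i : Fin K) (e : Vec (Fin K)) :
    hyb p (i + 1) e - hyb p i e = (1 - 2 * p) * (hyb p i e * sg (e i)) := by
  unfold hyb
  rw [← mul_prod_erase _ _ (mem_univ i), ← mul_prod_erase _ _ (mem_univ i)]
  have h1 : (∏ k ∈ univ.erase i, if (k : ℕ) < i + 1 then n1 p (e k) else 1 / 2)
      = ∏ k ∈ univ.erase i, if (k : ℕ) < i then n1 p (e k) else 1 / 2 := by
    refine prod_congr rfl fun k hk => if_congr ?_ rfl rfl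
    have := Fin.val_ne_of_ne (ne_of_mem_erase hk)
    omega
  rw [h1, if_pos (Nat.lt_succ_self _), if_neg (lt_irrefl _), n1_half]
  ring

lemma resample (i : Fin K) (Ψ : (Fin K → Vec (Fin n) × ZMod 2) → ℝ) :
    ∑ x, unif W x * ∑ U : Fin K → Vec (Fin n) × ZMod 2, ∑ β : Vec (Fin K),
        (∏ k, exProb p (par s) (unif W) (U k)) * (∏ _k : Fin K, (1 / 2 : ℝ)) *
          Ψ (fun k => (if k = i then x else (U k).1, if k < i then (U k).2 else β k))
      = ∑ U : Fin K → Vec (Fin n) × ZMod 2, (∏ k, unif W (U k).1) * hyb p i (noise s U) * Ψ U := by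
  have h1 : ∀ x, _ = _ := fun x => push2 (fun _ => exProb p (par s) (unif W))
    (fun (_ : Fin K) (_ : ZMod 2) => (1 / 2 : ℝ))
    (fun k a b => (if k = i then x else a.1, if k < i then a.2 else b)) Ψ
  simp only [h1, mul_sum _ _ (unif W _)]
  rw [sum_comm]
  refine sum_congr rfl fun U _ => ?_
  simp only [← mul_assoc, ← sum_mul]
  congr 1
  have h2 : ∀ (x : Vec (Fin n)) (k : Fin K), (∑ a : Vec (Fin n) × ZMod 2, ∑ b : ZMod 2,
      exProb p (par s) (unif W) a * (1 / 2) *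
        if (if k = i then x else a.1, if k < i then a.2 else b) = U k then 1 else 0)
      = (if k = i then (if x = (U i).1 then 1 else 0) else unif W (U k).1) *
        if (k : ℕ) < i then n1 p (noise s U k) else 1 / 2 := by
    intro x k
    rcases lt_trichotomy k i with hk | hk | hk
    · have hk' : (k : ℕ) < i := hk
      simp only [hk, hk', hk.ne, if_true, if_false, Prod.mk.eta]
      simp [exProb_eq, noise]
      ring
    · subst hk
      simp only [lt_irrefl, if_true, if_false, Prod.ext_iff, ite_and, ← mul_sum, ← sum_mul,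
        exProb_sum p _ (unif_prob W)]
      split_ifs <;> simp
    · have hk' : ¬ (k : ℕ) < i := not_lt.2 hk.le
      simp only [not_lt.2 hk.le, hk', hk.ne', if_false, Prod.ext_iff, ite_and, ← mul_sum,
        Fintype.sum_prod_type, exProb_eq]
      rw [sum_eq_single (U k).1 (fun a _ ha => by simp [ha]) (by simp)]
      simp only [if_true, sum_ite_eq', mem_univ, mul_one, ← sum_mul, ← mul_sum, sum_n1]
  simp only [h2, prod_mul_distrib, ← mul_assoc, ← sum_mul]
  unfold hyb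
  congr 1
  have h3 : ∀ x : Vec (Fin n),
      (∏ k, if k = i then (if x = (U i).1 then (1 : ℝ) else 0) else unif W (U k).1)
      = (if x = (U i).1 then 1 else 0) * ∏ k ∈ univ.erase i, unif W (U k).1 := by
    intro x
    rw [← mul_prod_erase _ _ (mem_univ i), if_pos rfl]
    congr 1
    exact prod_congr rfl fun k hk => if_neg (ne_of_mem_erase hk)
  rw [← mul_prod_erase _ _ (mem_univ i)]
  simp [h3]

lemma test_block (hG : Good G p η C D) (h : Vec (Idx K n) → ZMod 2) :
    (1 - 2 * p) * ∑ i : Fin K, ∑ x, unif W x * ∑ U : Fin K → Vec (Fin n) × ZMod 2,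
      ∑ β : Vec (Fin K), (∏ k, exProb p (par s) (unif W) (U k)) * (∏ _k : Fin K, (1 / 2 : ℝ)) *
        (sg (β i + par s x) *
          blk G h fun k => (if k = i then x else (U k).1, if k < i then (U k).2 else β k))
      = (1 - 2 * η) * ∑ x, law G s W D x * sg (h x + par (sec K s) x) := by
  have h1 : ∀ i : Fin K, (1 - 2 * p) * ∑ x, unif W x * ∑ U : Fin K → Vec (Fin n) × ZMod 2,
      ∑ β : Vec (Fin K), (∏ k, exProb p (par s) (unif W) (U k)) * (∏ _k : Fin K, (1 / 2 : ℝ)) *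
        (sg (β i + par s x) *
          blk G h fun k => (if k = i then x else (U k).1, if k < i then (U k).2 else β k))
      = tot s W G p h (i + 1) - tot s W G p h i := by
    intro i
    have h2 := resample s W (p := p) i fun U => sg (noise s U i) * blk G h U
    simp only [noise, if_true, lt_irrefl, if_false] at h2
    rw [h2, tot, tot, ← sum_sub_distrib, mul_sum]
    refine sum_congr rfl fun U _ => ?_
    have h3 := hyb_succ (p := p) i (noise s U)
    simp only [noise] at h3 ⊢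
    linear_combination (-(∏ k, unif W (U k).1) * blk G h U) * h3
  rw [mul_sum, sum_congr rfl fun i _ => h1 i,
    Fin.sum_univ_eq_sum_range (fun i => tot s W G p h (i + 1) - tot s W G p h i),
    sum_range_sub, tot_zero s W hG, tot_top s W hG, sub_zero]

lemma split_sample {m : ℕ} {α : Type} [Fintype α] (P : α → ℝ)
    (Ψ : (Fin m → Fin K → α) → (Fin K → α) → ℝ) :
    ∑ S : Option (Fin m) × Fin K → α, (∏ i, P (S i)) *
        Ψ (fun j k => S (some j, k)) (fun k => S (none, k))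
      = ∑ T : Fin m → Fin K → α, ∑ U : Fin K → α,
        (∏ j, ∏ k, P (T j k)) * (∏ k, P (U k)) * Ψ T U := by
  rw [sum_comm, ← Fintype.sum_prod_type']
  refine Fintype.sum_equiv ((Equiv.curry _ _ _).trans Equiv.piOptionEquivProd) _ _ fun S => ?_
  rw [Fintype.prod_prod_type, Fintype.prod_option, mul_comm (∏ k, P (S (none, k)))]
  rfl

lemma perm7 {a b c d e f g : Type} [Fintype a] [Fintype b] [Fintype c] [Fintype d] [Fintype e]
    [Fintype f] [Fintype g] (F : a → b → c → d → e → f → g → ℝ) :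
    ∑ x₁, ∑ x₂, ∑ x₃, ∑ x₄, ∑ x₅, ∑ x₆, ∑ x₇, F x₁ x₂ x₃ x₄ x₅ x₆ x₇
      = ∑ x₂, ∑ x₆, ∑ x₄, ∑ x₇, ∑ x₁, ∑ x₅, ∑ x₃, F x₁ x₂ x₃ x₄ x₅ x₆ x₇ := by
  let E : a × b × c × d × e × f × g ≃ b × f × d × g × a × e × c :=
    ⟨fun (x₁, x₂, x₃, x₄, x₅, x₆, x₇) => (x₂, x₆, x₄, x₇, x₁, x₅, x₃),
      fun (x₂, x₆, x₄, x₇, x₁, x₅, x₃) => (x₁, x₂, x₃, x₄, x₅, x₆, x₇), fun _ => rfl, fun _ => rfl⟩
  have := Fintype.sum_equiv E
    (fun z => F z.1 z.2.1 z.2.2.1 z.2.2.2.1 z.2.2.2.2.1 z.2.2.2.2.2.1 z.2.2.2.2.2.2)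
    (fun z => F z.2.2.2.2.1 z.1 z.2.2.2.2.2.2 z.2.2.1 z.2.2.2.2.2.1 z.2.1 z.2.2.2.1) fun _ => rfl
  simpa only [Fintype.sum_prod_type] using this

lemma corr_boost (hG : Good G p η C D) {m : ℕ} {Ω : Type} [Fintype Ω] (u : Ω → ℝ)
    (A : (Fin m → Vec (Idx K n) × ZMod 2) → Vec (Idx K n) → Ω → ZMod 2) :
    (1 - 2 * p) * K * corr p (par s) (unif W) (G.coinW u) (G.boost A)
      = (1 - 2 * η) * corr η (par (sec K s)) (law G s W D) u A := by
  have hK : (K : ℝ) ≠ 0 := by exact_mod_cast hG.pos.ne'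
  let Ξ : (Fin m → Vec (Idx K n) × ZMod 2) → ℝ := fun S => ∑ ω, u ω * ∑ i : Fin K, ∑ x, unif W x *
    ∑ U : Fin K → Vec (Fin n) × ZMod 2, ∑ β : Vec (Fin K),
      (∏ k, exProb p (par s) (unif W) (U k)) * (∏ _k : Fin K, (1 / 2 : ℝ)) *
        (sg (β i + par s x) * blk G (fun z => A S z ω)
          fun k => (if k = i then x else (U k).1, if k < i then (U k).2 else β k))
  have h1 : K * corr p (par s) (unif W) (G.coinW u) (G.boost A)
      = ∑ T : Fin m → Fin K → Vec (Fin n) × ZMod 2, ∑ ρ : Fin m → Fin r,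
        (∏ j, ∏ k, exProb p (par s) (unif W) (T j k)) * (∏ j, G.w (ρ j)) *
          Ξ fun j => (G.lift (ρ j) (T j), G.y (ρ j)) := by
    have h2 := split_sample (exProb p (par s) (unif W))
      fun (T : Fin m → Fin K → Vec (Fin n) × ZMod 2) U => ∑ c : Coins K r m Ω, G.coinW u c *
        ∑ x, unif W x * sg (c.2.2.2.1 c.2.2.1 + G.y c.2.1 +
          A (fun j => (G.lift (c.1 j) (T j), G.y (c.1 j)))
            (G.lift c.2.1 fun k => (if k = c.2.2.1 then x else (U k).1,
              if k < c.2.2.1 then (U k).2 else c.2.2.2.1 k)) c.2.2.2.2 + par s x)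
    refine (congrArg (fun z => (K : ℝ) * z) h2).trans ?_
    rw [mul_sum]
    refine sum_congr rfl fun T _ => ?_
    simp only [Fintype.sum_prod_type, Ξ, blk, mul_sum]
    rw [perm7]
    refine sum_congr rfl fun ρ _ => sum_congr rfl fun ω _ => sum_congr rfl fun i _ =>
      sum_congr rfl fun x _ => sum_congr rfl fun U _ => sum_congr rfl fun β _ =>
      sum_congr rfl fun ρ₀ _ => ?_
    have hk := mul_one_div_cancel hK
    rw [sg_add, sg_add, sg_add, sg_add, sg_add, Gadget.coinW, prod_const, card_univ,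
      Fintype.card_fin, one_div_pow]
    generalize (1 / (K : ℝ)) = k' at hk ⊢
    generalize sg (A _ _ ω) = a
    generalize (∏ j, ∏ k, exProb p (par s) (unif W) (T j k)) = b
    generalize (∏ k, exProb p (par s) (unif W) (U k)) = c
    linear_combination b * c * (∏ j, G.w (ρ j)) * G.w ρ₀ * (1 / 2 ^ K) * u ω * unif W x *
      sg (β i) * sg (G.y ρ₀) * a * sg (par s x) * hk
  have h3 := push2 (fun (_ : Fin m) (U : Fin K → Vec (Fin n) × ZMod 2) =>
    ∏ k, exProb p (par s) (unif W) (U k)) (fun _ => G.w) (fun _ U ρ => (G.lift ρ U, G.y ρ)) Ξ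
  have h4 : ∀ z : Vec (Idx K n) × ZMod 2, (∑ U : Fin K → Vec (Fin n) × ZMod 2, ∑ ρ,
      (∏ k, exProb p (par s) (unif W) (U k)) * G.w ρ *
        if (G.lift ρ U, G.y ρ) = z then 1 else 0) = exProb η (par (sec K s)) (law G s W D) z := by
    intro z
    have h5 := real_block s W hG fun z' => if z' = z then 1 else 0
    simp only [mul_ite, mul_one, mul_zero, sum_ite_eq', mem_univ, if_true] at h5
    rw [← h5]
    refine sum_congr rfl fun U _ => ?_
    rw [prod_exProb, mul_sum]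
    exact sum_congr rfl fun ρ _ => by split_ifs <;> ring
  rw [mul_assoc, h1, h3, corr, mul_sum, mul_sum]
  refine sum_congr rfl fun S _ => ?_
  simp only [h4, Ξ]
  rw [mul_left_comm, mul_left_comm (1 - 2 * η), mul_sum, mul_sum _ _ (1 - 2 * η)]
  congr 1
  refine sum_congr rfl fun ω _ => ?_
  rw [mul_left_comm, test_block s W hG, mul_left_comm]

lemma coinW_sum (hG : Good G p η C D) {m : ℕ} {Ω : Type} [Fintype Ω] {u : Ω → ℝ}
    (hu : IsProb u) : ∑ c : Coins K r m Ω, G.coinW u c = 1 := by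
  have hK : (K : ℝ) ≠ 0 := by exact_mod_cast hG.pos.ne'
  simp only [Fintype.sum_prod_type, Gadget.coinW, ← mul_sum, hu.2, mul_one, sum_const, card_univ,
    Fintype.card_fun, ZMod.card, Fintype.card_fin, nsmul_eq_mul, ← sum_mul, hG.w.2,
    sum_pi_one _ hG.w.2]
  push_cast
  field_simp

end Pool.Agent.MP_9f8ce8_lc.Par
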