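import Mathlib

namespace Pool.Agent.MP_9f8ce8_lc.Par

open Finset

/-- One noisy bit. -/
noncomputable def n1 (p : ℝ) (z : ZMod 2) : ℝ := if z = 0 then 1 - p else p

/-- Product noise. -/
noncomputable def nu (p : ℝ) {ι : Type} [Fintype ι] (e : ι → ZMod 2) : ℝ := ∏ i, n1 p (e i)

lemma sum_zmod2 (f : ZMod 2 → ℝ) : ∑ z, f z = f 0 + f 1 := by
  have : (univ : Finset (ZMod 2)) = {0, 1} := by decide
  rw [this, sum_pair (by decide)]

lemma n1_sum (p : ℝ) : ∑ z, n1 p z = 1 := by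
  rw [sum_zmod2]; simp [n1]

lemma nu_sum (p : ℝ) {ι : Type} [Fintype ι] [DecidableEq ι] :
    ∑ e : ι → ZMod 2, nu p e = 1 := by
  unfold nu
  rw [← Fintype.prod_sum (fun (_ : ι) (z : ZMod 2) => n1 p z)]
  simp [n1_sum]

lemma nu_nonneg {p : ℝ} (h0 : 0 ≤ p) (h1 : p ≤ 1) {ι : Type} [Fintype ι] (e : ι → ZMod 2) :
    0 ≤ nu p e := by
  refine prod_nonneg fun i _ => ?_
  unfold n1; split_ifs <;> linarith

/-- Product noise read in affine coordinates. -/
def Gen (p : ℝ) (V : Type) [AddCommGroup V] [Module (ZMod 2) V] : Set (V → ℝ) :=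
  {μ | ∃ (ι : Type) (_ : Fintype ι) (g : V ≃ₗ[ZMod 2] (ι → ZMod 2)) (t : ι → ZMod 2),
    μ = fun v => nu p (g v + t)}

/-- Mixtures of product noise read in affine coordinates. -/
def Mix (p : ℝ) (V : Type) [AddCommGroup V] [Module (ZMod 2) V] : Set (V → ℝ) :=
  convexHull ℝ (Gen p V)

variable {p : ℝ}

section
variable {V V' : Type} [AddCommGroup V] [Module (ZMod 2) V] [AddCommGroup V'] [Module (ZMod 2) V']

lemma mix_convex : Convex ℝ (Mix p V) := convex_convexHull ℝ _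

lemma gen_sub : Gen p V ⊆ Mix p V := subset_convexHull ℝ _

lemma mix_linear (T : (V → ℝ) →ₗ[ℝ] (V' → ℝ)) (hT : ∀ μ ∈ Gen p V, T μ ∈ Mix p V')
    {μ : V → ℝ} (h : μ ∈ Mix p V) : T μ ∈ Mix p V' :=
  convexHull_min (t := T ⁻¹' Mix p V') hT (mix_convex.linear_preimage T) h

lemma mix_sum [Fintype V] {μ : V → ℝ} (h : μ ∈ Mix p V) : ∑ v, μ v = 1 := by
  classical
  refine convexHull_min (t := {μ : V → ℝ | ∑ v, μ v = 1}) ?_ ?_ h
  · rintro _ ⟨ι, _, g, t, rfl⟩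
    show ∑ v, nu p (g v + t) = 1
    rw [← nu_sum p (ι := ι)]
    exact Fintype.sum_equiv (g.toEquiv.trans (Equiv.addRight t)) _ _ fun v => rfl
  · intro x hx y hy a b _ _ hab
    simp only [Set.mem_ofPred_eq, Pi.add_apply, Pi.smul_apply, smul_eq_mul] at hx hy ⊢
    rw [sum_add_distrib, ← mul_sum, ← mul_sum, hx, hy]; linarith

lemma mix_nonneg (h0 : 0 ≤ p) (h1 : p ≤ 1) {μ : V → ℝ} (h : μ ∈ Mix p V) (v : V) : 0 ≤ μ v := by
  refine convexHull_min (t := {μ : V → ℝ | 0 ≤ μ v}) ?_ ?_ h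
  · rintro _ ⟨ι, _, g, t, rfl⟩
    exact nu_nonneg h0 h1 _
  · intro x hx y hy a b ha hb _
    simp only [Set.mem_ofPred_eq, Pi.add_apply, Pi.smul_apply, smul_eq_mul] at hx hy ⊢
    positivity

lemma mix_comp (φ : V' ≃ₗ[ZMod 2] V) (t : V) {μ : V → ℝ} (h : μ ∈ Mix p V) :
    (fun v => μ (φ v + t)) ∈ Mix p V' := by
  refine mix_linear (LinearMap.funLeft ℝ ℝ fun v => φ v + t) ?_ h
  rintro _ ⟨ι, _, g, s, rfl⟩
  refine gen_sub ⟨ι, inferInstance, φ.trans g, g t + s, ?_⟩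
  funext v
  simp [LinearMap.funLeft, add_assoc]

lemma mix_prod {μ : V → ℝ} {μ' : V' → ℝ} (h : μ ∈ Mix p V) (h' : μ' ∈ Mix p V') :
    (fun x : V × V' => μ x.1 * μ' x.2) ∈ Mix p (V × V') := by
  let T : (V → ℝ) →ₗ[ℝ] (V × V' → ℝ) :=
    { toFun := fun μ x => μ x.1 * μ' x.2
      map_add' := fun a b => by funext x; simp [add_mul]
      map_smul' := fun a b => by funext x; simp [mul_assoc] }
  refine mix_linear T ?_ h
  rintro _ ⟨ι, _, g, s, rfl⟩
  let T' : (V' → ℝ) →ₗ[ℝ] (V × V' → ℝ) :=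
    { toFun := fun μ' x => nu p (g x.1 + s) * μ' x.2
      map_add' := fun a b => by funext x; simp [mul_add]
      map_smul' := fun a b => by funext x; simp [mul_left_comm] }
  refine mix_linear T' ?_ h'
  rintro _ ⟨ι', _, g', s', rfl⟩
  refine gen_sub ⟨ι ⊕ ι', inferInstance,
    (g.prodCongr g').trans (LinearEquiv.sumArrowLequivProdArrow ι ι' (ZMod 2) (ZMod 2)).symm,
    Sum.elim s s', ?_⟩
  funext x
  simp [T', nu, Fintype.prod_sum_type]

lemma mix_avg {I : Type} [Fintype I] [Nonempty I] (μ : I → V → ℝ) (h : ∀ i, μ i ∈ Mix p V) :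
    (fun v => (Fintype.card I : ℝ)⁻¹ * ∑ i, μ i v) ∈ Mix p V := by
  have hc : (0 : ℝ) < Fintype.card I := by exact_mod_cast Fintype.card_pos
  have := mix_convex.sum_mem (t := univ) (w := fun _ : I => (Fintype.card I : ℝ)⁻¹) (z := μ)
    (fun _ _ => by positivity) (by simp [hc.ne']) (fun i _ => h i)
  convert this using 1
  funext v
  simp [mul_sum]

lemma mix_pi_fin : ∀ (n : ℕ) (τ : Fin n → V → ℝ), (∀ j, τ j ∈ Mix p V) →
    (fun ζ : Fin n → V => ∏ j, τ j (ζ j)) ∈ Mix p (Fin n → V)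
  | 0, τ, _ => gen_sub ⟨Fin 0, inferInstance, LinearEquiv.ofSubsingleton _ _, 0, by
      funext ζ; simp [nu]⟩
  | n + 1, τ, h => by
    have := mix_comp (Fin.consLinearEquiv (ZMod 2) fun _ : Fin (n + 1) => V).symm 0
      (mix_prod (h 0) (mix_pi_fin n (fun j => τ j.succ) fun j => h _))
    convert this using 1
    funext ζ
    simp [Fin.prod_univ_succ, Fin.consLinearEquiv, Fin.tail]

lemma mix_pi {J : Type} [Fintype J] (τ : J → V → ℝ) (h : ∀ j, τ j ∈ Mix p V) :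
    (fun ζ : J → V => ∏ j, τ j (ζ j)) ∈ Mix p (J → V) := by
  let e := Fintype.equivFin J
  have := mix_comp (LinearEquiv.funCongrLeft (ZMod 2) V e.symm) 0
    (mix_pi_fin _ (fun j => τ (e.symm j)) fun j => h _)
  convert this using 1
  funext ζ
  simp only [add_zero, LinearEquiv.funCongrLeft_apply, LinearMap.funLeft_apply]
  exact (Fintype.prod_equiv e.symm _ _ fun j => rfl).symm

lemma mix_unif [Fintype V] {μ : V → ℝ} (h : μ ∈ Mix p V) :
    (fun _ => (Fintype.card V : ℝ)⁻¹) ∈ Mix p V := by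
  have := mix_avg (I := V) (fun t v => μ (LinearEquiv.refl (ZMod 2) V v + t))
    fun t => mix_comp _ t h
  convert this using 1
  funext v
  have : ∑ t, μ (LinearEquiv.refl (ZMod 2) V v + t) = 1 := by
    rw [← mix_sum h]
    exact Fintype.sum_equiv (Equiv.addLeft v) _ _ fun t => rfl
  rw [this, mul_one]

lemma avg_mask [Fintype V'] [Fintype (V →ₗ[ZMod 2] V')] (f : V' → ℝ) (hf : ∑ z, f z = 1)
    {d : V} (hd : d ≠ 0) (z : V') :
    (Fintype.card (V →ₗ[ZMod 2] V') : ℝ)⁻¹ * ∑ L : V →ₗ[ZMod 2] V', f (z + L d)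
      = (Fintype.card V' : ℝ)⁻¹ := by
  have : Fact (Nat.Prime 2) := ⟨Nat.prime_two⟩
  obtain ⟨φ, hφ⟩ := Module.Projective.exists_dual_eq_one (ZMod 2) hd
  have h1 : ∀ w : V', ∑ L : V →ₗ[ZMod 2] V', f (z + L d)
      = ∑ L : V →ₗ[ZMod 2] V', f (z + L d + w) := by
    intro w
    refine (Fintype.sum_equiv (Equiv.addRight (φ.smulRight w)) _ _ fun L => ?_).symm
    simp [hφ, add_assoc]
  have h2 : (Fintype.card V' : ℝ) * ∑ L : V →ₗ[ZMod 2] V', f (z + L d)
      = Fintype.card (V →ₗ[ZMod 2] V') := by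
    calc _ = ∑ w : V', ∑ L : V →ₗ[ZMod 2] V', f (z + L d + w) := by
          rw [← sum_congr rfl fun w _ => h1 w]; simp
      _ = ∑ L : V →ₗ[ZMod 2] V', ∑ w : V', f (z + L d + w) := sum_comm
      _ = ∑ L : V →ₗ[ZMod 2] V', (1 : ℝ) := by
          refine sum_congr rfl fun L _ => ?_
          rw [← hf]
          exact Fintype.sum_equiv (Equiv.addLeft (z + L d)) _ _ fun t => rfl
      _ = _ := by simp
  have hc : (0 : ℝ) < Fintype.card V' := by exact_mod_cast Fintype.card_pos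
  have hc' : (0 : ℝ) < Fintype.card (V →ₗ[ZMod 2] V') := by exact_mod_cast Fintype.card_pos
  field_simp
  linarith

lemma mix_mask [Fintype V] [DecidableEq V] [Fintype V'] {μ : V → ℝ} (h : μ ∈ Mix p V)
    (τ : V → V' → ℝ) (hτ : ∀ j, τ j ∈ Mix p V') :
    (fun x : V × (V → V') => μ x.1 *
      ∏ j, if x.1 = j then τ j (x.2 j) else (Fintype.card V' : ℝ)⁻¹) ∈ Mix p (V × (V → V')) := by
  have : Finite (V →ₗ[ZMod 2] V') := DFunLike.finite _
  let _ : Fintype (V →ₗ[ZMod 2] V') := Fintype.ofFinite _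
  have h1 := mix_prod h (mix_pi τ hτ)
  have h2 := mix_avg (I := V → V →ₗ[ZMod 2] V') _ fun L => mix_comp
    ((LinearEquiv.refl (ZMod 2) V).skewProd (LinearEquiv.refl (ZMod 2) (V → V')) (LinearMap.pi L))
    (0, fun j => - L j j) h1
  convert h2 using 1
  funext x
  have h3 : ∀ j, (if x.1 = j then τ j (x.2 j) else (Fintype.card V' : ℝ)⁻¹)
      = (Fintype.card (V →ₗ[ZMod 2] V') : ℝ)⁻¹ *
        ∑ L : V →ₗ[ZMod 2] V', τ j (x.2 j + L (x.1 - j)) := by
    intro j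
    split_ifs with hj
    · have hc' : (0 : ℝ) < Fintype.card (V →ₗ[ZMod 2] V') := by exact_mod_cast Fintype.card_pos
      simp [hj, hc'.ne']
    · rw [avg_mask _ (mix_sum (hτ j)) (sub_ne_zero.2 hj)]
  rw [prod_congr rfl fun j _ => h3 j, prod_mul_distrib, Fintype.prod_sum]
  simp only [LinearEquiv.skewProd_apply, LinearEquiv.refl_apply, Prod.mk_add_mk, add_zero,
    Pi.add_apply, LinearMap.pi_apply, ← mul_sum, map_add, map_neg, prod_const, card_univ,
    Fintype.card_fun, Nat.cast_pow, inv_pow, sub_eq_add_neg, add_assoc]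
  ring

end

/-- The law on m bits with mass x at zero and uniform elsewhere. -/
noncomputable def spike (m : ℕ) (x : ℝ) (z : Fin m → ZMod 2) : ℝ :=
  if z = 0 then x else (1 - x) / (2 ^ m - 1)

lemma exists_equiv {m : ℕ} {z z' : Fin m → ZMod 2} (hz : z ≠ 0) (hz' : z' ≠ 0) :
    ∃ T : (Fin m → ZMod 2) ≃ₗ[ZMod 2] (Fin m → ZMod 2), T z = z' := by
  have h01 : ∀ a : ZMod 2, a ≠ 1 → a = 0 := by decide
  have h11 : (1 : ZMod 2) + 1 = 0 := by decide
  have : Fact (Nat.Prime 2) := ⟨Nat.prime_two⟩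
  obtain ⟨φ, h1, h2⟩ : ∃ φ : Module.Dual (ZMod 2) (Fin m → ZMod 2), φ z = 1 ∧ φ z' = 1 := by
    obtain ⟨φ, hφ⟩ := Module.Projective.exists_dual_eq_one (ZMod 2) hz
    obtain ⟨ψ, hψ⟩ := Module.Projective.exists_dual_eq_one (ZMod 2) hz'
    by_cases a : φ z' = 1
    · exact ⟨φ, hφ, a⟩
    by_cases b : ψ z = 1
    · exact ⟨ψ, b, hψ⟩
    exact ⟨φ + ψ, by simp [hφ, h01 _ b], by simp [hψ, h01 _ a]⟩
  have hadd : ∀ v : Fin m → ZMod 2, v + v = 0 := fun v => by
    funext i; exact CharTwo.add_self_eq_zero _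
  have h3 : φ (z + z') = 0 := by rw [map_add, h1, h2]; exact h11
  refine ⟨LinearEquiv.ofInvolutive (LinearMap.id + φ.smulRight (z + z')) fun v => ?_, ?_⟩
  · simp only [LinearMap.add_apply, LinearMap.id_apply, LinearMap.smulRight_apply, map_add φ v,
      map_smul, h3, smul_zero, add_zero]
    rw [add_assoc, hadd, add_zero]
  · show z + φ z • (z + z') = z'
    rw [h1, one_smul, ← add_assoc, hadd, zero_add]

lemma spike_top {m : ℕ} (hm : 0 < m) : spike m ((1 - p) ^ m) ∈ Mix p (Fin m → ZMod 2) := by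
  have : Finite ((Fin m → ZMod 2) ≃ₗ[ZMod 2] (Fin m → ZMod 2)) := DFunLike.finite _
  let _ : Fintype ((Fin m → ZMod 2) ≃ₗ[ZMod 2] (Fin m → ZMod 2)) := Fintype.ofFinite _
  have h := mix_avg (p := p) (I := (Fin m → ZMod 2) ≃ₗ[ZMod 2] (Fin m → ZMod 2))
    (fun g v => nu p (g v + 0)) fun g => gen_sub ⟨Fin m, inferInstance, g, 0, rfl⟩
  set σ : (Fin m → ZMod 2) → ℝ := fun v =>
    (Fintype.card ((Fin m → ZMod 2) ≃ₗ[ZMod 2] (Fin m → ZMod 2)) : ℝ)⁻¹ *
      ∑ g : (Fin m → ZMod 2) ≃ₗ[ZMod 2] (Fin m → ZMod 2), nu p (g v + 0) with hσ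
  have hc : (0 : ℝ) < Fintype.card ((Fin m → ZMod 2) ≃ₗ[ZMod 2] (Fin m → ZMod 2)) := by
    exact_mod_cast Fintype.card_pos
  have h0 : σ 0 = (1 - p) ^ m := by simp [hσ, nu, n1, hc.ne']
  have h1 : ∀ z z', z ≠ 0 → z' ≠ 0 → σ z' = σ z := by
    intro z z' hz hz'
    obtain ⟨T, rfl⟩ := exists_equiv hz hz'
    simp only [hσ]
    congr 1
    exact Fintype.sum_equiv (Equiv.mulRight T) _ _ fun g => rfl
  have hs := mix_sum h
  convert h using 1
  funext z
  unfold spike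
  split_ifs with hz
  · rw [hz, h0]
  · rw [← add_sum_erase _ _ (mem_univ 0), h0,
      sum_congr rfl fun z' hz' => h1 z z' hz (ne_of_mem_erase hz')] at hs
    have h2 : (1 : ℝ) < 2 ^ m := one_lt_pow₀ (by norm_num) hm.ne'
    have h3 : ((2 ^ m - 1 : ℕ) : ℝ) = 2 ^ m - 1 := by
      rw [Nat.cast_sub Nat.one_le_two_pow]; simp
    simp only [sum_const, card_erase_of_mem (mem_univ _), card_univ, Fintype.card_fun, ZMod.card,
      Fintype.card_fin, nsmul_eq_mul, h3] at hs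
    rw [div_eq_iff (by linarith)]
    linarith

lemma spike_mem {m : ℕ} (hm : 0 < m) {x : ℝ} (h1 : (2 ^ m : ℝ)⁻¹ ≤ x) (h2 : x ≤ (1 - p) ^ m) :
    spike m x ∈ Mix p (Fin m → ZMod 2) := by
  have ht := spike_top (p := p) hm
  have h2m : (1 : ℝ) < 2 ^ m := one_lt_pow₀ (by norm_num) hm.ne'
  have hb : spike m (2 ^ m : ℝ)⁻¹ ∈ Mix p (Fin m → ZMod 2) := by
    convert mix_unif ht using 1
    funext z
    have : (2 : ℝ) ^ m - 1 ≠ 0 := by linarith
    unfold spike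
    split_ifs
    · simp
    · simp only [Fintype.card_fun, ZMod.card, Fintype.card_fin, Nat.cast_pow, Nat.cast_ofNat]
      field_simp
  have hx : x ∈ segment ℝ (2 ^ m : ℝ)⁻¹ ((1 - p) ^ m) := by
    rw [segment_eq_Icc (h1.trans h2)]; exact ⟨h1, h2⟩
  obtain ⟨a, b, ha, hb', hab, rfl⟩ := hx
  convert mix_convex hb ht ha hb' hab using 1
  funext z
  simp only [spike, Pi.add_apply, Pi.smul_apply, smul_eq_mul]
  split_ifs
  · rfl
  · have : b = 1 - a := by linarith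
    subst this
    ring

end Pool.Agent.MP_9f8ce8_lc.Par
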