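import Pool.Agent.MP_9f8ce8_lc.ParGad

namespace Pool.Agent.MP_9f8ce8_lc.Par

open Finset

/-- The sign of a bit. -/
noncomputable def sg (z : ZMod 2) : ℝ := if z = 0 then 1 else -1

lemma sg_add (a b : ZMod 2) : sg (a + b) = sg a * sg b := by
  have h11 : (1 : ZMod 2) + 1 = 0 := by decide
  rcases hcases a 0 with rfl | rfl <;> rcases hcases b 0 with rfl | rfl <;> simp [sg, h11]

lemma add_eq_zero_iff (a b : ZMod 2) : a + b = 0 ↔ a = b := by revert a b; decide

lemma exProb_eq {κ : Type} (η : ℝ) (c : Vec κ → ZMod 2) (D : Vec κ → ℝ) (z : Vec κ × ZMod 2) :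
    exProb η c D z = D z.1 * n1 η (z.2 + c z.1) := by
  simp only [exProb, n1, add_eq_zero_iff]

lemma n1_half (p : ℝ) (z : ZMod 2) : n1 p z = 1 / 2 + (1 - 2 * p) * sg z * (1 / 2) := by
  unfold n1 sg; split_ifs <;> ring

lemma sum_sg (a : ZMod 2) : ∑ y, sg (y + a) = 0 := by
  simp only [sg_add, ← sum_mul]
  rw [sum_zmod2]; simp [sg]

lemma sum_n1 (η : ℝ) (a : ZMod 2) : ∑ y, n1 η (y + a) = 1 := by
  rw [← n1_sum η]
  exact Fintype.sum_equiv (Equiv.addRight a) _ _ fun _ => rfl

lemma sum_n1_sg (η : ℝ) (a b : ZMod 2) :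
    ∑ y, n1 η (y + a) * sg (y + b) = (1 - 2 * η) * sg (b + a) := by
  have h11 : (1 : ZMod 2) + 1 = 0 := by decide
  rw [sum_zmod2]
  rcases hcases a 0 with rfl | rfl <;> rcases hcases b 0 with rfl | rfl <;>
    simp [sg, n1, h11] <;> ring

lemma exProb_sum {κ : Type} [Fintype κ] [DecidableEq κ] (η : ℝ) (c : Vec κ → ZMod 2)
    {D : Vec κ → ℝ} (hD : IsProb D) : ∑ z, exProb η c D z = 1 := by
  simp only [exProb_eq, Fintype.sum_prod_type, ← mul_sum, sum_n1, mul_one, hD.2]

lemma sum_pi_one {ι α : Type} [Fintype ι] [DecidableEq ι] [Fintype α] (P : α → ℝ)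
    (h : ∑ a, P a = 1) : ∑ S : ι → α, ∏ i, P (S i) = 1 := by
  rw [← Fintype.prod_sum fun (_ : ι) a => P a]; simp [h]

/-- Correlation of the prediction with the target. -/
noncomputable def corr {ι κ Ω : Type} [Fintype ι] [DecidableEq ι] [Fintype κ] [DecidableEq κ]
    [Fintype Ω] (η : ℝ) (c : Vec κ → ZMod 2) (D : Vec κ → ℝ) (u : Ω → ℝ)
    (h : (ι → Vec κ × ZMod 2) → Vec κ → Ω → ZMod 2) : ℝ :=
  ∑ S : ι → Vec κ × ZMod 2, (∏ i, exProb η c D (S i)) * ∑ ω : Ω, u ω * ∑ x : Vec κ,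
    D x * sg (h S x ω + c x)

lemma err_eq {ι κ Ω : Type} [Fintype ι] [DecidableEq ι] [Fintype κ] [DecidableEq κ]
    [Fintype Ω] (η : ℝ) (c : Vec κ → ZMod 2) {D : Vec κ → ℝ} {u : Ω → ℝ} (hD : IsProb D)
    (hu : ∑ ω, u ω = 1) (h : (ι → Vec κ × ZMod 2) → Vec κ → Ω → ZMod 2) :
    err η c D u h = (1 - corr η c D u h) / 2 := by
  have h1 : ∀ a b : ZMod 2, (if a = b then (0 : ℝ) else 1) = (1 - sg (a + b)) / 2 := by
    intro a b; simp only [sg, add_eq_zero_iff]; split_ifs <;> norm_num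
  have h2 : (1 : ℝ) = ∑ S : ι → Vec κ × ZMod 2, (∏ i, exProb η c D (S i)) * ∑ ω : Ω, u ω *
      ∑ x : Vec κ, D x := by
    simp only [hD.2, mul_one, hu]
    exact (sum_pi_one _ (exProb_sum η c hD)).symm
  unfold err corr
  simp only [h1]
  conv_rhs => rw [h2]
  rw [← sum_sub_distrib, sum_div]
  refine sum_congr rfl fun S _ => ?_
  rw [sum_comm]
  simp only [mul_sum, ← sum_sub_distrib, sum_div]
  refine sum_congr rfl fun ω _ => sum_congr rfl fun x _ => ?_
  ring

lemma push2 {ι α β γ : Type} [Fintype ι] [DecidableEq ι] [Fintype α] [Fintype β] [Fintype γ]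
    [DecidableEq γ] (P : ι → α → ℝ) (w : ι → β → ℝ) (f : ι → α → β → γ) (Ψ : (ι → γ) → ℝ) :
    ∑ T : ι → α, ∑ ρ : ι → β, (∏ j, P j (T j)) * (∏ j, w j (ρ j)) * Ψ (fun j => f j (T j) (ρ j))
      = ∑ z : ι → γ, (∏ j, ∑ a, ∑ b, P j a * w j b * (if f j a b = z j then 1 else 0)) * Ψ z := by
  symm
  simp only [Fintype.prod_sum, sum_mul]
  rw [sum_comm]
  refine sum_congr rfl fun T _ => ?_
  rw [sum_comm]
  refine sum_congr rfl fun ρ _ => ?_
  rw [sum_eq_single (fun j => f j (T j) (ρ j))]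
  · simp [prod_mul_distrib]
  · intro z _ hz
    obtain ⟨j, hj⟩ := Function.ne_iff.1 hz
    rw [prod_eq_zero (mem_univ j) (by rw [if_neg (Ne.symm hj), mul_zero]), zero_mul]
  · simp

section
variable {K r n : ℕ} (G : Gadget K r) (s : Vec (Fin n))

/-- The lifted point with linear part A and hidden value v. -/
def mk (A : Fin K → Vec (Fin n)) (v : Vec (Fin K)) : Vec (Idx K n) := fun φ =>
  ∑ a : Vec (Fin K), G.F a * ∏ k, (φ k).elim (v k + par s (A k) + a k + 1) (A k)

lemma par_mk (A : Fin K → Vec (Fin n)) (v : Vec (Fin K)) : par (sec K s) (mk G s A v) = G.F v := by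
  have h1 : ∀ a b c : ZMod 2, a + b + c + 1 + b = if c = a then 1 else 0 := by decide
  unfold par sec mk
  simp only [mul_sum]
  rw [sum_comm]
  have h2 : ∀ a : Vec (Fin K), ∑ φ : Idx K n, (∏ k, (φ k).elim 1 s) *
      (G.F a * ∏ k, (φ k).elim (v k + par s (A k) + a k + 1) (A k))
      = G.F a * if a = v then 1 else 0 := by
    intro a
    simp only [mul_left_comm _ (G.F a), ← mul_sum, ← prod_mul_distrib]
    rw [← Fintype.prod_sum fun k (o : Option (Fin n)) =>
      o.elim 1 s * o.elim (v k + par s (A k) + a k + 1) (A k)]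
    congr 1
    simp only [Fintype.sum_option, Option.elim, one_mul]
    have h3 : ∀ k, v k + par s (A k) + a k + 1 + ∑ l, s l * A k l = if a k = v k then 1 else 0 :=
      fun k => h1 _ _ _
    simp only [h3, prod_boole, mem_univ, true_imp_iff, funext_iff]
  rw [sum_congr rfl fun a _ => h2 a]
  simp

/-- Rows of the product of a square matrix and a list of points. -/
def rows (C : Matrix (Fin K) (Fin K) (ZMod 2)) (A : Fin K → Vec (Fin n)) : Fin K → Vec (Fin n) :=
  fun k => ∑ j, C k j • A j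

lemma rows_rows {B C : Matrix (Fin K) (Fin K) (ZMod 2)} (h : B * C = 1)
    (A : Fin K → Vec (Fin n)) : rows B (rows C A) = A := by
  funext k
  simp only [rows, smul_sum, smul_smul]
  rw [sum_comm]
  simp only [← sum_smul, ← Matrix.mul_apply, h, Matrix.one_apply, ite_smul, one_smul, zero_smul,
    sum_ite_eq, mem_univ, if_true]

lemma par_rows (C : Matrix (Fin K) (Fin K) (ZMod 2)) (A : Fin K → Vec (Fin n)) (k : Fin K) :
    par s (rows C A k) = ∑ j, C k j * par s (A j) := by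
  simp only [par, rows, Finset.sum_apply, Pi.smul_apply, smul_eq_mul, mul_sum]
  rw [sum_comm]
  exact sum_congr rfl fun j _ => sum_congr rfl fun l _ => by ring

lemma unif_rows (W : Submodule (ZMod 2) (Vec (Fin n))) {B C : Matrix (Fin K) (Fin K) (ZMod 2)}
    (h : B * C = 1) (A : Fin K → Vec (Fin n)) :
    ∏ k, unif W (rows C A k) = ∏ k, unif W (A k) := by
  classical
  have h1 : ∀ (C : Matrix (Fin K) (Fin K) (ZMod 2)) (A : Fin K → Vec (Fin n)),
      (∀ k, A k ∈ W) → ∀ k, rows C A k ∈ W :=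
    fun C A hA k => W.sum_mem fun j _ => W.smul_mem _ (hA j)
  by_cases hA : ∀ k, A k ∈ W
  · simp [unif, hA, h1 C A hA]
  · have hA' : ¬ ∀ k, rows C A k ∈ W := fun h' => hA (by simpa [rows_rows h] using h1 B _ h')
    obtain ⟨k, hk⟩ := not_forall.1 hA
    obtain ⟨k', hk'⟩ := not_forall.1 hA'
    rw [prod_eq_zero (mem_univ k') (by simp [unif, hk']),
      prod_eq_zero (mem_univ k) (by simp [unif, hk])]

lemma unif_prob (W : Submodule (ZMod 2) (Vec (Fin n))) : IsProb (unif W) := by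
  classical
  refine ⟨fun x => by unfold unif; split_ifs <;> positivity, ?_⟩
  have hc : (0 : ℝ) < Nat.card W := by exact_mod_cast Nat.card_pos
  have h2 : (Nat.card W : ℝ) = ((univ.filter fun x => x ∈ W).card : ℝ) := by
    rw [Nat.card_eq_fintype_card, Fintype.card_subtype]
  unfold unif
  rw [← sum_filter]
  simp only [sum_const, nsmul_eq_mul]
  rw [← h2]
  field_simp

/-- The noise vector of a block of examples. -/
def noise (U : Fin K → Vec (Fin n) × ZMod 2) : Vec (Fin K) := fun k => (U k).2 + par s (U k).1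

lemma change (W : Submodule (ZMod 2) (Vec (Fin n))) (ρ : Fin r)
    {C : Matrix (Fin K) (Fin K) (ZMod 2)} (h1 : G.B ρ * C = 1) (h2 : C * G.B ρ = 1)
    (ν : Vec (Fin K) → ℝ) (Φ : Vec (Idx K n) → ℝ) :
    ∑ U : Fin K → Vec (Fin n) × ZMod 2, (∏ k, unif W (U k).1) * ν (noise s U) * Φ (G.lift ρ U)
      = ∑ A : Fin K → Vec (Fin n), ∑ v : Vec (Fin K),
        (∏ k, unif W (A k)) * ν (C.mulVec v + G.t ρ) * Φ (mk G s A v) := by
  have hz : ∀ a b : ZMod 2, a + b + b = a := by decide
  have hz' : ∀ a b c : ZMod 2, a + b + c + b = a + c := by decide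
  have hv : ∀ a b : Vec (Fin K), a + b + b = a := fun a b => funext fun k => hz _ _
  let E : (Fin K → Vec (Fin n)) × Vec (Fin K) ≃ (Fin K → Vec (Fin n) × ZMod 2) :=
    { toFun := fun x k => (rows C x.1 k, (C.mulVec x.2 + G.t ρ) k + par s (rows C x.1 k))
      invFun := fun U => (rows (G.B ρ) fun k => (U k).1, (G.B ρ).mulVec (noise s U + G.t ρ))
      left_inv := fun x => by
        refine Prod.ext (rows_rows h1 _) ?_
        have : noise s (fun k => (rows C x.1 k, (C.mulVec x.2 + G.t ρ) k + par s (rows C x.1 k)))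
            = C.mulVec x.2 + G.t ρ := funext fun k => hz _ _
        simp only [this, hv, Matrix.mulVec_mulVec, h1, Matrix.one_mulVec]
      right_inv := fun U => by
        funext k
        simp only [rows_rows h2, Matrix.mulVec_mulVec, h2, Matrix.one_mulVec, hv, noise, hz] }
  rw [← Fintype.sum_prod_type']
  refine (Fintype.sum_equiv E _ _ fun x => ?_).symm
  have e1 : noise s (E x) = C.mulVec x.2 + G.t ρ := funext fun k => hz _ _
  have e2 : G.lift ρ (E x) = mk G s x.1 x.2 := by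
    funext φ
    refine sum_congr rfl fun a _ => congrArg _ (prod_congr rfl fun k _ => ?_)
    have e3 : ∑ j, G.B ρ k j * ((E x j).2 + G.t ρ j) = x.2 k + par s (x.1 k) := by
      have e4 : ∀ j, (E x j).2 + G.t ρ j = C.mulVec x.2 j + par s (rows C x.1 j) :=
        fun j => hz' _ _ _
      simp only [e4, mul_add, sum_add_distrib, ← par_rows, rows_rows h1]
      congr 1
      have : (G.B ρ).mulVec (C.mulVec x.2) k = x.2 k := by
        rw [Matrix.mulVec_mulVec, h1, Matrix.one_mulVec]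
      exact this
    have e5 : (fun l => ∑ j, G.B ρ k j * (E x j).1 l) = x.1 k := by
      funext l
      have := congrFun (congrFun (rows_rows h1 x.1) k) l
      simpa [rows, E] using this
    rw [e3, e5]
  rw [e1, e2, ← unif_rows W h1 x.1]
  rfl

end

end Pool.Agent.MP_9f8ce8_lc.Par
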