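import Pool.Agent.MP_9f8ce8_lc.RomDefs

namespace Pool.Agent.MP_9f8ce8_lc

/-- Names of permutations: a length k at most l, and either the key generator of that length or a
public key of that length. -/
abbrev Idx (l : ℕ) : Type := Σ k : Fin (l + 1), Option (X k)

/-- A world assigns a permutation of the strings of length k to every name of length k. -/
abbrev World (l : ℕ) : Type := (j : Idx l) → Equiv.Perm (X j.1)

/-- Bit queries: a length k, a request (generate, evaluate or invert) and a bit position. -/
abbrev TQ (l : ℕ) : Type := Σ k : Fin (l + 1), (X k ⊕ (X k × X k) ⊕ (X k × X k)) × Fin k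

/-- The value at x of the permutation of length k named o. -/
def val {l : ℕ} (ω : World l) (k : Fin (l + 1)) (o : Option (X k)) (x : X k) : X k := ω ⟨k, o⟩ x

/-- The value at y of the inverse of the permutation of length k named o. -/
def inv {l : ℕ} (ω : World l) (k : Fin (l + 1)) (o : Option (X k)) (y : X k) : X k :=
  (ω ⟨k, o⟩).symm y

/-- The string answering a request of length k: the public key of a secret key, the value of the
permutation named by a public key, or the inverse value given the secret key. -/
def ans {l : ℕ} (ω : World l) (k : Fin (l + 1)) : X k ⊕ (X k × X k) ⊕ (X k × X k) → X k :=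
  Sum.elim (val ω k none) (Sum.elim (fun p => val ω k (some p.1) p.2)
    fun p => inv ω k (some (val ω k none p.1)) p.2)

/-- The trapdoor permutation oracle of a world: it returns one bit of the answer. -/
def tdp {l : ℕ} (ω : World l) (y : TQ l) : Bool := ans ω y.1 y.2.1 y.2.2

end Pool.Agent.MP_9f8ce8_lc
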