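import Pool.Agent.MP_9f8ce8_lc.CapDefs

namespace Pool.Agent.MP_9f8ce8_lc

/-- Acceptance probabilities, as functions of the oracle, of randomised algorithms that make at
most q adaptive oracle queries: mixtures of decision trees of depth at most q. -/
def Ach {Y : Type} (q : ℕ) : Set ((Y → Bool) → ℝ) :=
  convexHull ℝ {f | ∃ t : DT Y, t.depth ≤ q ∧ f = fun O => if t.eval O then 1 else 0}

end Pool.Agent.MP_9f8ce8_lc
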